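import Pool.Agent.H945.Obj5
import Pool.Graph.R_seed8.Y118.HG.Kfin

/-!
# Absolute de Rham-Betti subvarieties on almost all products of hyperelliptic curves are motivic: no bound for the degree,
# for the height and for the field of definition, on both sides of the comparison isomorphism

Let `M = h^1(C_1) ⊕ … ⊕ h^1(C_N)` for curves `C_j` over a number field, with period matrix `P` (rows: a basis of
`H_1(C_j, ℚ)`, columns: a basis of `H^1_dR(C_j)`), and let `ρ(ℚ(0) ⊕ ℚ(-1) ⊕ M)` be any object constructed from `M` and the
Tate objects by an algebraic representation `ρ` over `K` of the general linear group (a tensor construction). A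
*de Rham-Betti subvariety* of such an object (for example a subobject, a class, a filtration step, a morphism or a graph)
is a closed subvariety `Z` of the de Rham realisation, defined over `ℚ̄`, such that its image under the comparison isomorphism is
defined over `ℚ̄` in the Betti realisation. The conjecture of Grothendieck says that all of them are stable under the motivic
Galois group: the Zariski closure over `ℚ̄` of the period point is the torsor of the motivic isomorphisms. As for Hodge classes we
ask whether this is true if the conjugates have the same property. We say that a finite set `𝓩` of subvarieties is *absolute*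
over `K` if `𝓩` and the set of the images of its members under the comparison isomorphism are both stable under
`Gal(ℚ̄ / K)`. Motivic subobjects and algebraic classes, with coefficients in any number field, belong to such sets. The members
of `𝓩` may be defined over fields of any degree over `K`, on both sides.

**Theorem.** Let `f_1, …, f_N ∈ ℚ[X]` be monic of degree `n = 2 g` with `n` distinct real roots which are not zero. For every
`D` there are `c > 0` and `M` such that for all `T` and all but `M T^(N - c)` of the `T^N` tuples `(t_1, …, t_N)` of natural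
numbers `t_j ≤ T` the following holds for the curves `C_j : y² = f_j(x) (x - 1 / t_j)` of genus `g` and for all number fields
`K` of degree at most `D`, in particular for `K = ℚ`:

1. All members `Z` of all absolute finite sets of de Rham-Betti subvarieties of all objects `ρ(ℚ(0) ⊕ ℚ(-1) ⊕ M)` are stable
   under the motivic Galois group, which is the group of the similitudes of the polarisations with the same multiplier `μ`
   (which acts on `ℚ(-1)` by `μ`).
2. All absolute de Rham-Betti classes in all tensor powers of `M`, with coefficients in an arbitrary field `F` which contains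
   `K`, are algebraic: if the line of `α` is a member of an absolute set, then `α` is mapped to `(2 π i)^k F₀`, with a
   combination `F₀` over `F` of products of polarisations of the curves `C_j`, that is of the Künneth components of type
   `(1, 1)` of the diagonals of `C_j × C_j`.

The theorems known before on almost all of these products (`HyperellipticSmallestSubtorsor`, `HyperellipticAllHeights`)
treat relations, subtorsors and classes over fields of degree at most `D`. They are special cases of part 1: a subtorsor
over `K` is the set of the isomorphisms which map a line over `K` to a line over `K`, by Chevalley. Here `D` is only a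
bound for the field `K` over which the whole system `𝓩` is defined, one can take `K = ℚ`, `D = 1`, and the members of `𝓩` are
defined over number fields of arbitrary degree.

Proof (`Pool/Agent/H945/Obj1`–`Obj5`, `Abs5`, `Abs6`). The isomorphisms which map `𝓩` to its image form a closed subset of
the general linear group, which is stable under the automorphisms of `ℂ` over `K`, hence defined over `K` (descent), and it
is a torsor since `𝓩` is finite. For almost all tuples the smallest `K`-subtorsor through the period point of `M` is the torsor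
of all isomorphisms which respect the polarisations (library: `Y118.HG.kfin`, a theorem on values of G-functions, and
`Y123.ST.crit_out`); the same follows for `ℚ(0) ⊕ ℚ(-1) ⊕ M`. So the group of the similitudes permutes the members of the image
of `𝓩`, and this is trivial for one-parameter groups since `ℂ` is divisible. For lines the first fundamental theorem for the
symplectic groups gives the combinations of products of the forms.
-/

set_option autoImplicit false

open Polynomial Matrix

namespace Pool.Agent.Results.MP_77d3f5_ag.AbsoluteSubvarieties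

open Pool.Agent.H945.Obj (IsRep IsAbsolute im)

/-- the alternating form with entries `2 (-1)^r` at `(r, s)`, `|r - s| = 1`: the polarisation of the curve in terms of the
loops around the gaps between neighbouring branch points -/
def polB (n : ℕ) : Matrix (Fin n) (Fin n) ℚ :=
  Matrix.of fun r s => if (r : ℕ) = s + 1 ∨ (s : ℕ) = r + 1 then 2 * (-1) ^ (r : ℕ) else 0

/-- The product of the polarisations of the curves `b l`, `l : Fin k`, where the polarisation of the curve `b l` is placed in
the tensor factors `e (l, 0)` and `e (l, 1)`; it is considered as a tensor with coefficients in `F`. -/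
noncomputable def polProduct (F : Subfield ℂ) (n : ℕ) {N k : ℕ} {κ : Type} (e : Fin k × Fin 2 ≃ κ) (b : Fin k → Fin N) :
    (κ → Fin n × Fin N) → F := fun I =>
  ∏ l, if (I (e (l, 0))).2 = b l ∧ (I (e (l, 1))).2 = b l then ((polB n (I (e (l, 0))).1 (I (e (l, 1))).1 : ℚ) : F) else 0

/-- the branch points: `t` inserted at place `m` in the sequence of the `a i` -/
noncomputable def branch {n : ℕ} (a : Fin n → ℝ) (m : Fin (n + 1)) (t : ℝ) : Fin (n + 1) → ℝ :=
  Fin.insertNth (α := fun _ => ℝ) m t a

/-- the period `∮ x^j dx / y`, `y² = ∏ (x - e i)`, over the loop around the segment `[e l, e (l + 1)]`, that is twice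
the integral over the segment (principal branch of the square root) -/
noncomputable def period {n : ℕ} (e : Fin (n + 1) → ℝ) (l j : Fin n) : ℂ :=
  2 * ∫ x in (e l.castSucc)..(e l.succ), (x : ℂ) ^ (j : ℕ) / (((∏ i, (x - e i) : ℝ) : ℂ) ^ (1 / 2 : ℂ))

/-- the period matrix of `M`, the sum of the `h^1` of the curves with the branch points `a j i`, `1 / t j` and infinity -/
noncomputable def periodMatrix {n N : ℕ} (a : Fin N → Fin n → ℝ) (m : Fin N → Fin (n + 1)) (t : Fin N → ℕ) :
    Matrix (Fin n × Fin N) (Fin n × Fin N) ℂ :=
  Matrix.blockDiagonal fun j => Matrix.of (period (branch (a j) (m j) (1 / (t j : ℝ))))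

/-- the matrix of the sum of `ℚ(0)`, `ℚ(-1)` and an object: the entries `1`, `μ` and the block `x` -/
def withTate {B : Type} (μ : ℂ) (x : Matrix B B ℂ) : Matrix (Fin 2 ⊕ B) (Fin 2 ⊕ B) ℂ :=
  fromBlocks (diagonal ![1, μ]) 0 0 x

/-- the tensor power with the factors `κ` of a matrix -/
def tensorPower (κ : Type) [Fintype κ] {B : Type} (x : Matrix B B ℂ) : Matrix (κ → B) (κ → B) ℂ :=
  Matrix.of fun I J => ∏ k, x (I k) (J k)

/-- **The theorem.** -/
theorem result (n N : ℕ) (hn : Even n) (hn0 : 0 < n) (hN : 0 < N) (a : Fin N → Fin n → ℝ) (f : Fin N → ℚ[X])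
    (m : Fin N → Fin (n + 1)) (hf : ∀ j, (f j).map (algebraMap ℚ ℝ) = ∏ i, (X - C (a j i)))
    (h0 : ∀ j, StrictMono (branch (a j) (m j) 0)) (D : ℕ) :
    ∃ c M : ℝ, 0 < c ∧ ∀ T : ℕ, 1 ≤ T → ∃ S : Finset (Fin N → ℕ), (S.card : ℝ) ≤ M * (T : ℝ) ^ ((N : ℝ) - c) ∧
      ∀ t : Fin N → ℕ, (∀ j, 1 ≤ t j ∧ t j ≤ T) → t ∉ S →
        (∀ j, StrictMono (branch (a j) (m j) (1 / (t j : ℝ)))) ∧
        ∀ K : Subfield ℂ, FiniteDimensional ℚ K → Module.finrank ℚ K ≤ D →
        -- 1. subvarieties of all objects
        (∀ (ι : Type) [Fintype ι] [DecidableEq ι]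
          (ρ : Matrix (Fin 2 ⊕ Fin n × Fin N) (Fin 2 ⊕ Fin n × Fin N) ℂ → Matrix ι ι ℂ) (𝓩 : Set (Set (ι → ℂ))),
          IsRep K ρ → IsAbsolute K (ρ (withTate (2 * Real.pi * Complex.I) (periodMatrix a m t))) 𝓩 → ∀ Z ∈ 𝓩,
          ∀ (μ : ℂ) (g : Fin N → Matrix (Fin n) (Fin n) ℂ), μ ≠ 0 →
          (∀ j, g j * (polB n).map (algebraMap ℚ ℂ) * (g j)ᵀ = μ • (polB n).map (algebraMap ℚ ℂ)) →
          im (ρ (withTate μ (Matrix.blockDiagonal g)))
              (im (ρ (withTate (2 * Real.pi * Complex.I) (periodMatrix a m t))) Z) =
            im (ρ (withTate (2 * Real.pi * Complex.I) (periodMatrix a m t))) Z) ∧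
        -- 2. classes in tensor powers
        (∀ (κ : Type) [Fintype κ] [DecidableEq κ] (𝓩 : Set (Set ((κ → Fin n × Fin N) → ℂ))) (F : Subfield ℂ)
          (α : (κ → Fin n × Fin N) → F), IsAbsolute K (tensorPower κ (periodMatrix a m t)) 𝓩 → K ≤ F → α ≠ 0 →
          {v | ∃ z : ℂ, ∀ I, v I = z * α I} ∈ 𝓩 →
          ∃ (k : ℕ) (F₀ : (κ → Fin n × Fin N) → F), Fintype.card κ = 2 * k ∧
            F₀ ∈ Submodule.span F {G | ∃ (e : Fin k × Fin 2 ≃ κ) (b : Fin k → Fin N), G = polProduct F n e b} ∧
            ∀ I, (tensorPower κ (periodMatrix a m t) *ᵥ fun I => (α I : ℂ)) I =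
              (2 * Real.pi * Complex.I) ^ k * F₀ I) := by
  obtain ⟨d, hd⟩ := Pool.Agent.Y123.ST.crit_out n hn hn0
  obtain ⟨c, M, hc, h1⟩ := Pool.Agent.Y118.HG.kfin hn a f hf m h0 D d
  refine ⟨c, M, hc, fun T hT => ?_⟩
  obtain ⟨S, hS, h2⟩ := h1 T hT
  refine ⟨S, hS, fun t ht htS => ?_⟩
  obtain ⟨h3, h4, h5⟩ := h2 t ht htS
  refine ⟨h3, fun K hK hKD => ?_⟩
  have : NumberField K := { to_charZero := inferInstance, to_finiteDimensional := hK }
  have hOm := hd N K _ _ (2 * Real.pi * Complex.I) hN (by
    intro x hx
    have h6 : IsAlgebraic ℚ (⟨x, hx⟩ : K) := Algebra.IsAlgebraic.isAlgebraic _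
    exact h6.algebraMap (A := ℂ)) (by
    intro j a' b'
    exact SubfieldClass.ratCast_mem K _) Pool.Agent.Y123.ST.transc_two_pi_I h4.2 (by
    intro P hP h6 X' μ hμ hX
    have h7 := h5 K (algebraMap K ℂ) (MvPolynomial.rename some P) hKD
      ((MvPolynomial.totalDegree_rename_le _ _).trans hP) (by
        rw [MvPolynomial.map_rename, MvPolynomial.eval_rename]
        exact h6) (X', μ) ⟨hμ, hX⟩
    rw [MvPolynomial.map_rename, MvPolynomial.eval_rename] at h7
    exact h7)
  have hu : IsUnit (periodMatrix a m t) := by
    obtain ⟨⟨_, I, hI⟩, hΩ2, _⟩ := hOm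
    exact ((hI _).1 hΩ2).1
  constructor
  · intro ι _ _ ρ 𝓩 hρ h Z hZ μ g hμ hg
    exact Pool.Agent.H945.Obj.stab_all hn hn0 hN (by
      intro j a' b'
      exact SubfieldClass.ratCast_mem K _) h4.1 h4.2 hu hOm hρ h hZ hμ hg
  · intro κ _ _ 𝓩 F α h hKF hα hZ
    have hset : {v : (κ → Fin n × Fin N) → ℂ | ∃ z : ℂ, ∀ I, v I = z * α I} =
        {v | ∃ z : ℂ, v = z • Pool.Agent.H945.Abs.inC α} := by
      ext v
      constructor
      · rintro ⟨z, hz⟩
        exact ⟨z, funext hz⟩
      · rintro ⟨z, rfl⟩
        exact ⟨z, fun _ => rfl⟩
    rw [hset] at hZ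
    obtain ⟨k, F₀, hk, hF₀, h6⟩ := Pool.Agent.H945.Obj.line_alg hn (by
      intro j a' b'
      exact SubfieldClass.ratCast_mem K _) h4.1 h4.2 hu hOm (κ := κ) (𝓩 := 𝓩) h F hKF hα hZ
    refine ⟨k, F₀, by omega, ?_, fun I => ?_⟩
    · refine Submodule.span_le.2 ?_ hF₀
      rintro _ ⟨e, b, rfl⟩
      have h8 : Pool.Agent.H945.Abs.prK F n e b = ((-2 : F) ^ k)⁻¹ • polProduct F n e b := by
        funext I
        have h9 := congrFun (Pool.Agent.Y123.ST.prB_eq (n := n) e b) I
        have h10 : polProduct F n e b I = ((Pool.Agent.Y123.ST.prB n e b I : ℚ) : F) := by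
          unfold polProduct Pool.Agent.Y123.ST.prB
          rw [Rat.cast_prod]
          refine Finset.prod_congr rfl fun l _ => ?_
          split_ifs
          · rfl
          · rw [Rat.cast_zero]
        rw [Pi.smul_apply, h10, h9, Pi.smul_apply, smul_eq_mul, smul_eq_mul]
        push_cast
        rw [← mul_assoc, inv_mul_cancel₀ (pow_ne_zero _ (by norm_num)), one_mul]
        rfl
      rw [h8]
      exact Submodule.smul_mem _ _ (Submodule.subset_span ⟨e, b, rfl⟩)
    · exact congrFun h6 I

end Pool.Agent.Results.MP_77d3f5_ag.AbsoluteSubvarieties
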