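import Pool.Agent.H847.PG.RLaw

/-!
# The growth of the periods and of the algebraic classes on the powers of a variety

Let `X` be a smooth projective variety over the field `k` of algebraic numbers (or over a subfield `F`
of `ℂ`), and `b` the sum of its Betti numbers. Let `S` be a system of classes (for instance: the
classes of the algebraic cycles, or the motivated classes of André) which are Hodge classes and de
Rham-Betti classes, such that `H(X)` has a polarisation which is given by a class of the system on
`X × X`. This holds

* for the algebraic classes, if `X` satisfies the standard conjecture of Lefschetz type, for instance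
  if `X` is an abelian variety;
* for the motivated classes, for all `X`.

Let `p n` be the number of the linearly independent classes of the system on `X ^ (n + 1)` (of all
codimensions), `drb n` the number of the linearly independent de Rham-Betti classes on `X ^ (n + 1)`,
and `per n` the number of the periods of `X ^ (n + 1)` which are linearly independent over `F`. Let `t`
be the transcendence degree of the periods of `X`, that is the dimension of the Zariski closure of
the comparison isomorphism.

Theorem.

1. `per n` has the exact order of growth `n ^ t`.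

2. There is a natural number `a` such that `p n` has the exact order of growth `b ^ n n ^ (-a / 2)`,
   and `a` is the dimension of the group of the automorphisms of `H(X, ℂ)` which fix the classes of
   the system on all powers of `X`.

3. `t ≤ a + 1`, so `p n = O(b ^ n n ^ (-(t - 1) / 2))`; moreover
   `per n ≤ (2 dim X ^ (n + 1) + 1) m n` for all `n`, where `m n` is the dimension of the space of
   the functions on this group which are given by homogeneous polynomials of degree `n + 1`. The
   equality `t = a + 1`, which the conjecture of Grothendieck predicts, holds if and only if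
   `p n ^ 2 per n ≥ c b ^ (2 n) n` for some `c > 0` and all `n`.

4. Either there is a natural number `N` with `drb n = (N + O(1 / n)) p n`, and `N = 1` if and only if
   all de Rham-Betti classes on all powers of `X` are in the system; or there is `c > 0` with
   `drb n ≥ c n ^ (1 / 2) p n` for ALL `n`.

5. If `t = a + 1` and `S'` is a larger system of classes which are Hodge classes and de Rham-Betti
   classes, then the number of the classes of `S'` on `X ^ (n + 1)` is `(N + O(1 / n)) p n` for a
   natural number `N`.
-/

set_option autoImplicit false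

open CategoryTheory AlgebraicGeometry

universe u

namespace Pool.Agent.Results.MP_77d3f5_ag.GrowthOfPeriods

open Pool.Agent.H914 VarClass Obj WeilCohomology
open Pool.Agent.Y163 (pw)
open Pool.Agent.H847.PG

/-- The lower bound `p n ^ 2 q n ≥ c b ^ (2 n) (n + 1)` for some `c > 0` and all `n`. -/
def Extremal (b : ℝ) (p q : ℕ → ℕ) : Prop :=
  ∃ c : ℝ, 0 < c ∧ ∀ n : ℕ, c * (b ^ (2 * n) * (n + 1)) ≤ (p n : ℝ) ^ 2 * q n

variable {k : Type u} [Field k] {𝒱 : VarClass k} {ops : CycleOps 𝒱}

section

variable {W : WeilCohomology.{u, 0} ops} [Algebra W.K ℂ] {F : Subfield ℂ}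

/-- The classes of the system are de Rham-Betti classes. -/
def AreDRB (D : DRFam W F) (S : Classes W) : Prop := ∀ Y j c, Lies (S Y) j c → IsDRB D Y j c

/-- All de Rham-Betti classes on all powers of `X` are in the system. -/
def DRBIn (D : DRFam W F) (S : Classes W) (X : 𝒱.Obj) : Prop :=
  ∀ n j c, IsDRB D (pw X n) j c → Lies (S (pw X n)) j c

/-- The quotients of the numbers `r n` of de Rham-Betti classes and `p n` of classes of the system on
`X ^ (n + 1)` are `N + O(1 / n)`, and `N = 1` if and only if the de Rham-Betti classes on the powers
of `X` are in the system. -/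
def HasDRBIndex (D : DRFam W F) (S : Classes W) (X : 𝒱.Obj) (r p : ℕ → ℕ) : Prop :=
  ∃ N : ℕ, 1 ≤ N ∧ (N = 1 ↔ DRBIn D S X) ∧ NearIndex N r p

/-- The classes of the system `S` are in the system `S'`. -/
def IsIn (S S' : Classes W) : Prop := ∀ Y j c, Lies (S Y) j c → Lies (S' Y) j c

/-- The classes of the system `S'` on the powers of `X` are in the system `S`. -/
def PowIn (X : 𝒱.Obj) (S' S : Classes W) : Prop :=
  ∀ n j c, Lies (S' (pw X n)) j c → Lies (S (pw X n)) j c

/-- The quotients of the numbers of the classes of `S'` and `S` on `X ^ (n + 1)` are `N + O(1 / n)`,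
and `N = 1` if and only if the classes of `S'` on the powers of `X` are in `S`. -/
def HasIndex (X : 𝒱.Obj) (S' S : Classes W) (p : ℕ → ℕ) : Prop :=
  ∃ N : ℕ, 1 ≤ N ∧ (N = 1 ↔ PowIn X S' S) ∧ NearIndex N (fun n => numOf S' (pw X n)) p

end

/-- Growth of the periods and of the classes on the powers. -/
theorem result (W : WeilCohomology.{u, 0} ops) [Algebra W.K ℂ] (pq : HTypes W)
    (hW : IsHodgeTheory pq) (F : Subfield ℂ) (D : DRFam W F) (hD : IsDeRhamTheory D) (X : 𝒱.Obj)
    [Nontrivial (W.H X)] (per drb : ℕ → ℕ) (hper : ∀ n, per n = perNum D (pw X n))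
    (hdrb : ∀ n, drb n = drbNum D (pw X n)) :
    ∃ t : ℕ, PerDeg D X t ∧ HasPoly t per ∧
      ∀ S : Classes W, IsPolarisedBy pq X S → AreDRB D S →
        ∀ p : ℕ → ℕ, (∀ n, p n = numOf S (pw X n)) →
          ∃ a : ℕ, HasOrder (bettiSum W X) a p ∧ HasPoly a (groupDim S X) ∧
            (∀ n, per n ≤ (2 * (pw X n).dim + 1) * groupDim S X n) ∧ t ≤ a + 1 ∧
            (t = a + 1 ↔ Extremal (bettiSum W X) p per) ∧
            (HasDRBIndex D S X drb p ∨ SqrtGap drb p) ∧
            (t = a + 1 → ∀ S' : Classes W, IsIn S S' → IsPolarisedBy pq X S' → AreDRB D S' →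
              HasIndex X S' S p) := by
  obtain rfl := funext hper
  obtain rfl := funext hdrb
  obtain ⟨t, h1, h2, h3⟩ := period_law hW hD X
  refine ⟨t, h1, h2, fun S hS hSD p hp => ?_⟩
  obtain rfl := funext hp
  obtain ⟨a, h4, h5, h6, h7, h8, h9⟩ := h3 S hS hSD
  refine ⟨a, h4, h5, h6, h7, ?_, h8, h9⟩
  have hb : (0 : ℝ) < bettiSum W X := by
    have : 0 < Module.finrank W.K (W.H X) := Module.finrank_pos
    exact_mod_cast this
  exact crit_iff hb h4 h2 h7

end Pool.Agent.Results.MP_77d3f5_ag.GrowthOfPeriods
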