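import Pool.Agent.H936.X.Tens
import Pool.Agent.H936.V.Pull

/-!
# The classes of the period conjecture on products of abelian varieties near different special abelian varieties

Let `A_{1,0}, …, A_{N,0}` be **special** abelian varieties of dimension `g ≥ 2`: an abelian variety with period matrix `C` is
special (over a number field of degree at most `D`) if it has an endomorphism which is not in `ℤ`, for example if it has complex
multiplication, or, more generally, if a subtorsor of `Iso (H^1_dR, H^1_B)` contains `C`, has a group which is defined over `ℚ`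
and is not stable under `Sp`; so it is special if the Mumford-Tate group is smaller than `GSp`. The `A_{j,0}` may be **different**,
their isogeny factors need not be related to each other; they have polarisations with the same matrix `H`, and `C_j` is the
period matrix of `A_{j,0}`. Let `X_j → B_j` be families of polarised abelian varieties over `ℚ`, `B_j` open in the affine space
of any dimension `m`, which have `A_{j,0}` as the fibre at the origin; their period matrices are `P_j(x) = C_j Z_j(x)`, where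
`Z_j` is a matrix of G-functions in `m` variables. Let `A_j` be the fibre at `x_j = a_j / b_j`, `a_j ∈ ℤ^m`, `b_j ∈ ℕ`, and
`M_j = h^1(A_j)`. Let `C₀` be the period matrix of another object `M_0`, and

  `c = C₀ ⊕ P_1(a_1 / b_1) ⊕ … ⊕ P_N(a_N / b_N)`, the period matrix of `M = M_0 ⊕ M_1 ⊕ … ⊕ M_N`.

**Theorem.** For all `g ≥ 2`, `m`, `N`, `q`, `D`, `r`, `e` there is `E` such that the following holds for all real `B ≥ 1` and all
`h, w, b₀` with `b₀ ≥ (2 B (h + w + 2))^E`, **all** `H` and **all** special `C_1, …, C_N`, **all** families `X_j` of degree at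
most `q` and size at most `B` with big monodromy on the lines `ℚ a_j`, **all** numerators with `|a_j| ≤ h`, **all** denominators
`b_j` in `[b₀, b₀ + w]` which are equal or have distances larger than `2^(m+1) B (h + 2)`, **all** `C₀` of size `r` with one of
the two properties below, and **all** number fields `K` with `[K : ℚ] ≤ D`:

1. **Classes** on all powers: if a tensor with coefficients in `K` of `(M_0 ⊕ M_0^∨)^⊗k ⊗ (M_1 ⊕ … ⊕ M_N)^⊗l` is mapped to a
   multiple of a rational tensor on the Betti side, then this is a linear combination of products of tensors of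
   `(M_0 ⊕ M_0^∨)^⊗k` and polarisations of the `A_j`; here `k` and `l` are arbitrary, `E` does not depend on them. In particular
   there are none if `l` is odd, `Hom (M_0, M_j) = 0`, and for `k = 0` the de Rham-Betti classes on **all** products of powers of
   the `A_j` are algebraic: they are polynomials in the classes of divisors, as the period conjecture predicts.
2. All `K`-subtorsors `S` with `c ∈ S` and with a group which is defined over `ℚ` are stable under `1 × Sp × … × Sp`: the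
   `M_j` are **independent of `M_0`**.
3. If `C₀ = 2 π i` (`M_0 = ℚ(-1)^r`) then `S` is equal to the torsor `T_pol` of all isomorphisms which respect the
   polarisations as soon as it is contained in it.
4. No `A_j` is special, and there are no homomorphisms between `A_i` and `A_j`, `i ≠ j`, over fields of degree at most `D`.

The object `M_0` has the property `NoLargeFactor` if there is a subtorsor over a field of degree at most `D` which contains `C₀`,
has a rational group, and the Lie algebra of this group has a chain of ideals the factors of which are commutative or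
of dimension smaller than `g (2 g + 1) = dim Sp`. This contains, **without any assumption on the transcendence of the numbers**
in `C₀`: all iterated extensions of objects of ranks `ρ` with `ρ² < g (2 g + 1)` (`noLargeFactor_of_blocks` below), so all `M_0` of
rank `ρ`, all mixed Tate motives and all 1-motives with an abelian part which is isogenous to a product of abelian varieties of
dimension at most `0.7 g` (in suitable bases); moreover motives with a torsor which comes from the Mumford-Tate group, as `h^1` of abelian varieties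
of dimension smaller than `g`, of abelian varieties of any dimension with complex multiplication, and of all special abelian
varieties of dimension `g`. The second property, `FewPeriods`, is that up to a factor all entries of `C₀` are algebraic over a
field generated by `2 g - 2` numbers.

**Comparison.** In the theorems without exceptional denominators which were known before (`AllLargeParameters`,
`SpecialFibresRepel`) the fibres are near one and the same central fibre, and `C₀` is linked to few numbers or to the periods of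
the central fibre. New here are: different centres; the independence of all `M_0` without large factors; the statement on
classes with coefficients in `M_0`.

**Proof** (`Pool/Agent/H936/X`, `V`, `G`, `Pool/Agent/H885`). In the ultraproduct `ℂ^*` of a sequence of counterexamples there
are, by the uniform theorem on the linear independence of values of G-functions at several points (`H885`), for each `X` in
`𝔰𝔭` and each `j` derivations `δ` over `ℚ^*` with `δ(Z_j) Z_j⁻¹ = C_j⁻¹ X C_j` and `δ(Z_i) = 0`, `i ≠ j`. The limit `L` of the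
Lie algebras of the groups of `S` is normalised by `(δ(C₀) C₀⁻¹, F_1(δ), …, F_j(δ) + X, …, F_N(δ))`, `F_i(δ) = δ(C_i) C_i⁻¹`.
We have no control over the `F_i(δ)`, but they normalise the limits `𝔩_i` of the special torsors through `C_i`. The factorisation
theorem `thmE` (`𝔰𝔭 = 𝔫(𝔩) + 𝔫(𝔩_j)` for two nonzero subalgebras with nondegenerate trace forms is possible only if one
of them is `𝔰𝔭`) gives that all projections of `L` are `𝔰𝔭`. If a projection to two factors were not `𝔰𝔭 × 𝔰𝔭`, it would be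
the graph of an isomorphism, by which `F_i(δ)` is a function of `F_j(δ) + X`, and all these elements would be in the
normaliser of `𝔩_i` or its image, a contradiction to the same theorem (`X/Graph`, `X/Chain`). So `L` projects onto `𝔰𝔭^N`, and
the kernels of the projections to `M_0` are found from a chain of ideals (`X/Sig`: no factor of the Lie algebra of `M_0` can be
`𝔰𝔭`), or from the small number of derivations of `C₀`. The nonvanishing and the nondegeneracy come from Bost's form of the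
Schneider-Lang theorem and from the positivity of the polarisation. Part 1 follows from part 2 for the torsor of all isomorphisms
which map the line of the de Rham tensor to the line of the Betti tensor, and from the first fundamental theorem for `Sp`
(`X/Fft`, `X/Tens`).

Nothing is assumed about periods: `AbVar` is the description of an abelian variety over `ℚ̄` by theta functions
(`Pool/Agent/Y102/AVDefs.lean` explains why every abelian variety has it).
-/

set_option autoImplicit false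

open PowerSeries Filter
open scoped Matrix

namespace Pool.Agent.Results.MP_77d3f5_ag.NearDifferentSpecialVarieties

open Pool.Agent.Y102 (AbVar riemannForm)

/-! ### Families -/

section several
variable {n m N : ℕ}

/-- an integer polynomial in `m` variables as a power series with rational coefficients -/
noncomputable def toQ (P : MvPolynomial (Fin m) ℤ) : MvPowerSeries (Fin m) ℚ :=
  ((P.map (Int.castRingHom ℚ) : MvPolynomial (Fin m) ℚ) : MvPowerSeries (Fin m) ℚ)

/-- the partial derivative `∂f / ∂x_i` -/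
noncomputable def partialD (i : Fin m) (f : MvPowerSeries (Fin m) ℚ) : MvPowerSeries (Fin m) ℚ :=
  fun ν => ((ν i : ℚ) + 1) * MvPowerSeries.coeff (ν + Finsupp.single i 1) f

/-- `Z` is an invertible `n × n` matrix of G-functions in `m` variables with rational coefficients, `W = Z⁻¹`, which
solves the system `T ∂Z / ∂x_i = Z A_i`, `i = 1, …, m`. The degrees of `T` and `A_i` are at most `q`; the
absolute values of their coefficients and the growth of the coefficients of `Z` and of the denominators of the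
coefficients of `Z` and `W` are bounded by `B`. -/
structure Family (q : ℕ) (B : ℝ) (T : MvPolynomial (Fin m) ℤ) (A : Fin m → Fin n → Fin n → MvPolynomial (Fin m) ℤ)
    (Z W : Matrix (Fin n) (Fin n) (MvPowerSeries (Fin m) ℚ)) : Prop where
  /-- the degree of `T` -/
  degT : T.totalDegree ≤ q
  /-- the height of `T` -/
  sizeT : ∀ ν, |((T.coeff ν : ℤ) : ℝ)| ≤ B
  /-- the degrees of the `A_i` -/
  degA : ∀ i a b, (A i a b).totalDegree ≤ q
  /-- the heights of the `A_i` -/
  sizeA : ∀ i a b ν, |(((A i a b).coeff ν : ℤ) : ℝ)| ≤ B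
  /-- the differential equations -/
  ode : ∀ i a b, toQ T * partialD i (Z a b) = ∑ l, Z a l * toQ (A i l b)
  /-- `W` is the inverse of `Z` -/
  inv : W * Z = 1
  /-- the growth of the coefficients -/
  size : ∀ a b (ν : Fin m →₀ ℕ), |((MvPowerSeries.coeff ν (Z a b) : ℚ) : ℝ)| ≤ B ^ (∑ i, ν i + 1)
  /-- the growth of the common denominators of the coefficients -/
  den : ∀ k : ℕ, ∃ d : ℕ, 0 < d ∧ (d : ℝ) ≤ B ^ (k + 1) ∧ ∀ a b (ν : Fin m →₀ ℕ), ∑ i, ν i ≤ k →
    (∃ z : ℤ, (d : ℚ) * MvPowerSeries.coeff ν (Z a b) = z) ∧ ∃ z : ℤ, (d : ℚ) * MvPowerSeries.coeff ν (W a b) = z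

/-- the power series `f(x a)` in the variable `x`, the restriction of `f` to the line through `0` with direction `a` -/
noncomputable def restrict (a : Fin m → ℤ) (f : MvPowerSeries (Fin m) ℚ) : PowerSeries ℚ :=
  PowerSeries.mk fun k => ∑ ν ∈ (Finset.univ : Finset (Fin m)).finsuppAntidiag k,
    MvPowerSeries.coeff ν f * ∏ i, (a i : ℚ) ^ ν i

/-- the value `Z(a / b)`, that is, the value of the restriction of `Z` to the line at `x = 1 / b` -/
noncomputable def value (Z : Matrix (Fin n) (Fin n) (MvPowerSeries (Fin m) ℚ)) (a : Fin m → ℤ) (b : ℕ) :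
    Matrix (Fin n) (Fin n) ℂ :=
  Matrix.of fun i j => ((∑' k : ℕ, ((coeff k (restrict a (Z i j)) : ℚ) : ℝ) * (1 / (b : ℝ)) ^ k : ℝ) : ℂ)

/-- the restriction of `Z` to the line with direction `a`, over `ℂ` -/
noncomputable def onLine (a : Fin m → ℤ) (Z : Matrix (Fin n) (Fin n) (MvPowerSeries (Fin m) ℚ)) :
    Matrix (Fin n) (Fin n) (PowerSeries ℂ) :=
  Z.map fun f => PowerSeries.map (algebraMap ℚ ℂ) (restrict a f)

/-- `(X_1, …, X_N)` is an infinitesimal symmetry of the matrices `Y_1, …, Y_N` of power series: for all polynomial relations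
`R(x, Y_1(x), …, Y_N(x)) = 0` over `ℂ[x]` the derivative of `R(x, (1 + ε X_1) Y_1(x), …, (1 + ε X_N) Y_N(x))` at `ε = 0` is
zero. -/
def Symmetry (Y : Fin N → Matrix (Fin n) (Fin n) (PowerSeries ℂ)) (X : Fin N → Matrix (Fin n) (Fin n) ℂ) : Prop :=
  ∀ R : MvPolynomial (Fin N × Fin n × Fin n) (Polynomial ℂ),
    MvPolynomial.aeval (fun σ => Y σ.1 σ.2.1 σ.2.2) R = 0 →
    ∑ σ, MvPolynomial.aeval (fun σ => Y σ.1 σ.2.1 σ.2.2) (MvPolynomial.pderiv σ R) *
      ((X σ.1).map (PowerSeries.C (R := ℂ)) * Y σ.1) σ.2.1 σ.2.2 = 0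

end several


/-- the distance of the denominators `b` and `c` is larger than `2^(m+1) B (h + 2)` -/
def Far (m : ℕ) (B : ℝ) (h b c : ℕ) : Prop := 2 ^ (m + 1) * B * ((h : ℝ) + 2) < |(b : ℝ) - c|

/-- the tuple `b` of denominators is in the window `[b₀, b₀ + w]`, and its members are equal or far from each other -/
def InWindow {N : ℕ} (m : ℕ) (B : ℝ) (h w b₀ : ℕ) (b : Fin N → ℕ) : Prop :=
  (∀ j, b₀ ≤ b j ∧ b j ≤ b₀ + w) ∧ ∀ i j, b i = b j ∨ Far m B h (b i) (b j)

/-! ### Abelian varieties -/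

/-- rational matrices as complex matrices -/
def toC {n : ℕ} (M : Matrix (Fin n) (Fin n) ℚ) : Matrix (Fin n) (Fin n) ℂ := M.map fun x : ℚ => (x : ℂ)

section abelian
variable {g : ℕ} (A : AbVar g)

/-- The matrix of the periods of `A`: the integrals over the basis of the lattice of the invariant differentials `d z k`
and of the differentials of the second kind `d (∂ k (log θ 0))`, a basis of `H^1_dR (A / ℚ̄)`. -/
noncomputable def periods : Matrix (Fin (2 * g)) (Fin g ⊕ Fin g) ℂ := Matrix.of fun a i => A.dR i (Pi.single a 1)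

/-- `P` is the matrix of the comparison isomorphism `H^1_dR → H^1_B` of `A` for some basis `R` of the rational homology, in
which the Riemann form has the matrix `H` up to a rational factor, and some basis of the de Rham cohomology over `ℚ̄`
(given by `T`). -/
def Presents (H : Matrix (Fin (2 * g)) (Fin (2 * g)) ℚ) (P : Matrix (Fin (2 * g)) (Fin (2 * g)) ℂ) : Prop :=
  ∃ (R : Matrix (Fin (2 * g)) (Fin (2 * g)) ℚ) (T : Matrix (Fin g ⊕ Fin g) (Fin (2 * g)) ℂ) (q : ℚ),
    IsUnit R ∧ IsUnit P ∧ (∀ i j, IsAlgebraic ℚ (T i j)) ∧ q ≠ 0 ∧ P = toC R * periods A * T ∧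
    ∀ a b, ∑ c, ∑ d, (R a c : ℂ) * riemannForm A.lam A.η (A.lam c) (A.lam d) * (R b d : ℂ) = (q : ℂ) * (H a b : ℂ)

end abelian

/-! ### Torsors -/

/-- `S` is (the set of complex points of) a `K`-subtorsor of `GL_B = Iso (M_dR, M_B)`: it is closed under `x y⁻¹ z`, and
it is defined in `GL_B` by polynomials with coefficients in `K`. -/
def IsSubtorsor (K : Subfield ℂ) {B : Type} [Fintype B] [DecidableEq B] (S : Set (Matrix B B ℂ)) : Prop :=
  (∀ x ∈ S, ∀ y ∈ S, ∀ z ∈ S, x * y⁻¹ * z ∈ S) ∧ ∃ I : Set (MvPolynomial (B × B) K), ∀ x : Matrix B B ℂ, x ∈ S ↔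
    IsUnit x ∧ ∀ p ∈ I, MvPolynomial.eval (fun b => x b.1 b.2) (MvPolynomial.map (algebraMap K ℂ) p) = 0

/-- The group of the torsor `S` on the Betti side, the set of the `x y⁻¹` with `x`, `y` in `S`, is defined over `ℚ`: it is
stable under all automorphisms of the field of complex numbers. -/
def RationalGroup {B : Type} [Fintype B] [DecidableEq B] (S : Set (Matrix B B ℂ)) : Prop :=
  ∀ σ : ℂ ≃+* ℂ, ∀ x ∈ S, ∀ y ∈ S, ∃ x' ∈ S, ∃ y' ∈ S, (x * y⁻¹).map σ = x' * y'⁻¹

/-! ### Special abelian varieties -/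

section centre
variable {n : ℕ}

/-- `x` is contained in a field of degree at most `D` over `ℚ` -/
def SmallDegree (D : ℕ) (x : ℂ) : Prop := ∃ K : Subfield ℂ, FiniteDimensional ℚ K ∧ Module.finrank ℚ K ≤ D ∧ x ∈ K

/-- the polarisation `H` is, on the de Rham side, given by a matrix `Q` with entries of degree at most `D`:
`C Q Cᵀ = 2 π i H` (`D = 1` for polarised abelian varieties over `ℚ` and bases of `H^1_dR` over `ℚ`) -/
def Polarised (D : ℕ) (H : Matrix (Fin n) (Fin n) ℚ) (C : Matrix (Fin n) (Fin n) ℂ) : Prop :=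
  ∃ Q : Matrix (Fin n) (Fin n) ℂ, (∀ i j, SmallDegree D (Q i j)) ∧ C * Q * Cᵀ = (2 * Real.pi * Complex.I : ℂ) • toC H

/-- The abelian variety is special over a field `K` of degree at most `D`: it has an endomorphism, given by a rational matrix
`α` on `H_1`, which is not a rational number and is defined over `K` on the de Rham side; or there is a `K`-subtorsor `S` of the
torsor of all isomorphisms from `H^1_dR` to `H^1_B` which contains the matrix `C` of the periods, whose group is defined over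
`ℚ`, and which is not stable under the symplectic group of `H`. -/
def Special (D : ℕ) (H : Matrix (Fin n) (Fin n) ℚ) (C : Matrix (Fin n) (Fin n) ℂ) : Prop :=
  ∃ K : Subfield ℂ, FiniteDimensional ℚ K ∧ Module.finrank ℚ K ≤ D ∧
    ((∃ α : Matrix (Fin n) (Fin n) ℚ, (∀ c : ℚ, α ≠ c • 1) ∧ ∀ i j, (C⁻¹ * toC α * C) i j ∈ K) ∨
    ∃ S : Set (Matrix (Fin n) (Fin n) ℂ), IsSubtorsor K S ∧ RationalGroup S ∧ C ∈ S ∧
      ∃ γ : Matrix (Fin n) (Fin n) ℂ, γ * toC H * γᵀ = toC H ∧ ∃ x ∈ S, γ * x ∉ S)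

/-- `y` satisfies an equation `P(b, y) = 0` where `P` has rational coefficients and total degree at most `e` and `P(b, Y)` is
not the zero polynomial -/
def AlgebraicOver (e : ℕ) {ι : Type} (b : ι → ℂ) (y : ℂ) : Prop :=
  ∃ P : MvPolynomial (Option ι) ℚ, P.totalDegree ≤ e ∧ MvPolynomial.aeval (fun o : Option ι => o.elim y b) P = 0 ∧
    ∃ y' : ℂ, MvPolynomial.aeval (fun o : Option ι => o.elim y' b) P ≠ 0

/-- Numbers which are algebraic over the field generated by the `b_i` have this property for some `e`. -/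
theorem algebraicOver_of_isAlgebraic {ι : Type} {b : ι → ℂ} {y : ℂ}
    (h : IsAlgebraic (IntermediateField.adjoin ℚ (Set.range b)) y) : ∃ e, AlgebraicOver e b y :=
  Pool.Agent.H936.V.ag_of_alg h

/-- **Big monodromy**: for each number `c`, the product of the symplectic Lie algebras of `H` (on the Betti side) for the `j`
with `b_j = c` consists of infinitesimal symmetries of the restrictions of the matrices `C_j Z_j` with `b_j = c` to the lines
through `0` with directions `a_j`. It is sufficient that the monodromy group of the sum of these families on the lines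
is Zariski dense in the product of the symplectic groups; there is no condition on points with different denominators. -/
def BigMonodromy {m N : ℕ} (H : Matrix (Fin n) (Fin n) ℚ) (C : Fin N → Matrix (Fin n) (Fin n) ℂ) (b : Fin N → ℕ)
    (a : Fin N → Fin m → ℤ) (Z : Fin N → Matrix (Fin n) (Fin n) (MvPowerSeries (Fin m) ℚ)) : Prop :=
  ∀ X : Fin N → Matrix (Fin n) (Fin n) ℂ, (∀ j, X j * toC H + toC H * (X j)ᵀ = 0) → ∀ c : ℕ,
    Symmetry (fun j => if b j = c then onLine (a j) (Z j) else 1)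
      (fun j => if b j = c then (C j)⁻¹ * X j * C j else 0)

end centre

/-! ### The motive `M_0` -/

/-- `X` is in the Lie algebra of the group of the torsor `S` on the Betti side: `S` is stable under all `exp (s X)` -/
def InLie {B : Type} [Fintype B] [DecidableEq B] (S : Set (Matrix B B ℂ)) (X : Matrix B B ℂ) : Prop :=
  ∀ s : ℂ, ∀ x ∈ S, NormedSpace.exp (s • X) * x ∈ S

/-- First condition on `M_0`: a `K`-subtorsor `S` of the torsor of all isomorphisms, `[K : ℚ] ≤ D`, contains the period matrix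
`C₀`, its group is defined over `ℚ`, and the Lie algebra of this group has a chain of ideals `𝔞_0 ⊇ 𝔞_1 ⊇ … ⊇ 𝔞_t = 0`
the factors of which are commutative or have dimensions smaller than `g (2 g + 1)`, the dimension of `Sp`. -/
def NoLargeFactor (g D : ℕ) {r : ℕ} (C₀ : Matrix (Fin r) (Fin r) ℂ) : Prop :=
  ∃ (K : Subfield ℂ) (S : Set (Matrix (Fin r) (Fin r) ℂ)), FiniteDimensional ℚ K ∧ Module.finrank ℚ K ≤ D ∧
    IsSubtorsor K S ∧ RationalGroup S ∧ C₀ ∈ S ∧
    ∃ (t : ℕ) (𝔞 : ℕ → Submodule ℂ (Matrix (Fin r) (Fin r) ℂ)), (∀ X, InLie S X → X ∈ 𝔞 0) ∧ 𝔞 t = ⊥ ∧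
      ∀ i < t, 𝔞 (i + 1) ≤ 𝔞 i ∧ (∀ X, InLie S X → ∀ Y ∈ 𝔞 (i + 1), X * Y - Y * X ∈ 𝔞 (i + 1)) ∧
        (Module.finrank ℂ (𝔞 i) < Module.finrank ℂ (𝔞 (i + 1)) + g * (2 * g + 1) ∨
          ∀ X ∈ 𝔞 i, ∀ Y ∈ 𝔞 i, X * Y - Y * X ∈ 𝔞 (i + 1))

/-- Second condition on `M_0`: up to a common factor the entries of `C₀` are algebraic, with equations of degree at most `e`,
over the field generated by `2 g - 2` numbers. -/
def FewPeriods (g e : ℕ) {r : ℕ} (C₀ : Matrix (Fin r) (Fin r) ℂ) : Prop :=
  ∃ (s : ℕ) (β : Fin s → ℂ), s + 2 ≤ 2 * g ∧ ∃ κ : ℂ, κ ≠ 0 ∧ ∀ i j, AlgebraicOver e β (κ * C₀ i j)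

/-- the field of rational numbers -/
theorem exists_field {D : ℕ} (hD : 1 ≤ D) : ∃ K : Subfield ℂ, FiniteDimensional ℚ K ∧ Module.finrank ℚ K ≤ D :=
  ⟨(⊥ : IntermediateField ℚ ℂ).toSubfield, (inferInstance : FiniteDimensional ℚ (⊥ : IntermediateField ℚ ℂ)),
    (le_of_eq IntermediateField.finrank_bot).trans hD⟩

/-- The members of the chain for block triangular matrices; the row and the column `i` belong to the block `c i`. -/
def blockChain {r : ℕ} (c : Fin r → ℕ) (M k : ℕ) : Submodule ℂ (Matrix (Fin r) (Fin r) ℂ) where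
  carrier := {X | ∀ i j : Fin r, c j < c i + (k - M) ∨ (c i = c j ∧ c i < k) → X i j = 0}
  zero_mem' _ _ _ := rfl
  add_mem' {x y} hx hy i j h := by rw [Matrix.add_apply, hx i j h, hy i j h, add_zero]
  smul_mem' c x hx i j h := by rw [Matrix.smul_apply, hx i j h, smul_zero]

theorem blockChain_mul {r : ℕ} {c : Fin r → ℕ} {M k : ℕ} {X Y : Matrix (Fin r) (Fin r) ℂ}
    (hX : ∀ i j, c j < c i → X i j = 0) (hY : Y ∈ blockChain c M k) : X * Y ∈ blockChain c M k ∧ Y * X ∈ blockChain c M k := by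
  constructor
  · intro i j h
    rw [Matrix.mul_apply]
    refine Finset.sum_eq_zero fun s _ => ?_
    by_cases h1 : c s < c i
    · rw [hX i s h1, zero_mul]
    · rw [hY s j (by omega), mul_zero]
  · intro i j h
    rw [Matrix.mul_apply]
    refine Finset.sum_eq_zero fun s _ => ?_
    by_cases h1 : c j < c s
    · rw [hX s j h1, mul_zero]
    · rw [hY i s (by omega), zero_mul]

/-- **Example.** All iterated extensions of objects of ranks `ρ` with `ρ² < g (2 g + 1)` satisfy the first condition: it is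
sufficient that `C₀` is block triangular with blocks of these sizes; the row and the column `i` belong to the block `c i`. -/
theorem noLargeFactor_of_blocks {g D r : ℕ} (hD : 1 ≤ D) {C₀ : Matrix (Fin r) (Fin r) ℂ} (hC₀ : IsUnit C₀)
    (c : Fin r → ℕ) (h : ∀ i j : Fin r, c j < c i → C₀ i j = 0)
    (hr : ∀ k, Fintype.card {i : Fin r // c i = k} * Fintype.card {i : Fin r // c i = k} < g * (2 * g + 1)) :
    NoLargeFactor g D C₀ := by
  obtain ⟨K, hK, hKD⟩ := exists_field hD
  obtain ⟨M, hM⟩ : ∃ M, ∀ i, c i < M :=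
    ⟨∑ i, (c i + 1), fun i => lt_of_lt_of_le (Nat.lt_succ_self _)
      (Finset.single_le_sum (f := fun i => c i + 1) (fun _ _ => Nat.zero_le _) (Finset.mem_univ i))⟩
  have hmul : ∀ {X Y : Matrix (Fin r) (Fin r) ℂ}, (∀ i j, c j < c i → X i j = 0) → (∀ i j, c j < c i → Y i j = 0) →
      ∀ i j, c j < c i → (X * Y) i j = 0 := by
    intro X Y hX hY i j hij
    rw [Matrix.mul_apply]
    refine Finset.sum_eq_zero fun s _ => ?_
    by_cases h1 : c s < c i
    · rw [hX i s h1, zero_mul]
    · rw [hY s j (by omega), mul_zero]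
  have hinv : ∀ {X : Matrix (Fin r) (Fin r) ℂ}, IsUnit X → (∀ i j, c j < c i → X i j = 0) →
      ∀ i j, c j < c i → X⁻¹ i j = 0 := by
    intro X hu hX i j hij
    have : Invertible X := hu.invertible
    have h1 : X.BlockTriangular c := fun i j hij => hX i j hij
    exact Matrix.blockTriangular_inv_of_blockTriangular h1 hij
  have h1 : ∀ i j, c j < c i → (1 : Matrix (Fin r) (Fin r) ℂ) i j = 0 := by
    intro i j hij
    exact Matrix.one_apply_ne (by rintro rfl; omega)
  have hLie : ∀ X, InLie {x : Matrix (Fin r) (Fin r) ℂ | IsUnit x ∧ ∀ i j, c j < c i → x i j = 0} X →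
      ∀ i j, c j < c i → X i j = 0 := by
    intro X hX i j hij
    have h2 := Pool.Agent.Helper880_R3.exp_HD X 0 i j
    rw [zero_smul, Pool.Agent.Helper880_R3.exp_zero', Matrix.mul_one] at h2
    have h3 : (fun u : ℂ => NormedSpace.exp (u • X) i j) = fun _ => 0 := by
      funext u
      have h4 := (hX u 1 ⟨isUnit_one, h1⟩).2 i j hij
      rwa [Matrix.mul_one] at h4
    rw [h3] at h2
    exact (hasDerivAt_const _ _).unique h2 |>.symm
  refine ⟨K, {x | IsUnit x ∧ ∀ i j, c j < c i → x i j = 0}, hK, hKD,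
    ⟨fun x hx y hy z hz => ⟨(hx.1.mul (Pool.Agent.H936.V.inv_unit hy.1)).mul hz.1,
      hmul (hmul hx.2 (hinv hy.1 hy.2)) hz.2⟩, {p | ∃ i j : Fin r, c j < c i ∧ p = MvPolynomial.X (i, j)},
    fun x => ?_⟩, fun σ x hx y hy => ⟨(x * y⁻¹).map σ, ⟨?_, ?_⟩, 1, ⟨isUnit_one, h1⟩, by rw [inv_one, Matrix.mul_one]⟩,
    ⟨hC₀, h⟩, M + M, blockChain c M, fun X hX => ?_, ?_, fun k hk => ⟨?_, fun X hX Y hY => ?_, ?_⟩⟩
  · constructor
    · rintro ⟨hx, hx'⟩
      refine ⟨hx, ?_⟩
      rintro p ⟨i, j, hij, rfl⟩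
      rw [MvPolynomial.map_X, MvPolynomial.eval_X]
      exact hx' i j hij
    · rintro ⟨hx, hx'⟩
      refine ⟨hx, fun i j hij => ?_⟩
      have h2 := hx' _ ⟨i, j, hij, rfl⟩
      rwa [MvPolynomial.map_X, MvPolynomial.eval_X] at h2
  · exact (hx.1.mul (Pool.Agent.H936.V.inv_unit hy.1)).map (σ : ℂ →+* ℂ).mapMatrix
  · intro i j hij
    rw [Matrix.map_apply, hmul hx.2 (hinv hy.1 hy.2) i j hij, map_zero]
  · intro i j hij
    exact hLie X hX i j (by omega)
  · rw [Submodule.eq_bot_iff]
    intro X hX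
    ext i j
    have h2 := hM j
    exact hX i j (Or.inl (by omega))
  · intro X hX i j hij
    exact hX i j (by omega)
  · obtain ⟨h2, h3⟩ := blockChain_mul (hLie X hX) hY
    exact Submodule.sub_mem _ h2 h3
  · by_cases hkM : k < M
    · left
      let ρ : blockChain c M k →ₗ[ℂ] Matrix {i : Fin r // c i = k} {i : Fin r // c i = k} ℂ :=
        { toFun := fun X => Matrix.of fun i j => X.1 i.1 j.1
          map_add' := fun _ _ => rfl
          map_smul' := fun _ _ => rfl }
      have h2 := LinearMap.finrank_range_add_finrank_ker ρ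
      have h3 : Module.finrank ℂ (LinearMap.range ρ) < g * (2 * g + 1) := by
        refine lt_of_le_of_lt (Submodule.finrank_le _) ?_
        rw [Module.finrank_matrix, Module.finrank_self, mul_one]
        exact hr k
      have h4 : Module.finrank ℂ (LinearMap.ker ρ) ≤ Module.finrank ℂ (blockChain c M (k + 1)) := by
        let f : LinearMap.ker ρ →ₗ[ℂ] blockChain c M (k + 1) :=
          ((blockChain c M k).subtype ∘ₗ (LinearMap.ker ρ).subtype).codRestrict (blockChain c M (k + 1)) (by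
            rintro ⟨⟨X, hX⟩, hX0⟩ i j hij
            show X i j = 0
            by_cases h5 : c i = k ∧ c j = k
            · exact congrFun (congrFun hX0 ⟨i, h5.1⟩) ⟨j, h5.2⟩
            · exact hX i j (by omega))
        refine LinearMap.finrank_le_finrank_of_injective (f := f) ?_
        intro x y hxy
        have h5 : ((f x : blockChain c M (k + 1)) : Matrix (Fin r) (Fin r) ℂ) = (f y : blockChain c M (k + 1)) := by
          rw [hxy]
        exact Subtype.ext (Subtype.ext h5)
      omega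
    · right
      intro X hX Y hY i j hij
      have h2 : ∀ {X Y : Matrix (Fin r) (Fin r) ℂ}, X ∈ blockChain c M k → Y ∈ blockChain c M k → (X * Y) i j = 0 := by
        intro X Y hX hY
        rw [Matrix.mul_apply]
        refine Finset.sum_eq_zero fun s _ => ?_
        have h3 := hM i
        have h4 := hM s
        by_cases h1 : c s < c i + (k - M) ∨ c i = c s
        · rw [hX i s (by omega), zero_mul]
        · rw [hY s j (by omega), mul_zero]
      rw [Matrix.sub_apply, h2 hX hY, h2 hY hX, sub_zero]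

section
variable {n N r : ℕ}

/-- the block matrix `x ⊕ X_1 ⊕ … ⊕ X_N` -/
def total (x : Matrix (Fin r) (Fin r) ℂ) (X : Fin N → Matrix (Fin n) (Fin n) ℂ) :
    Matrix (Fin r ⊕ (Fin n × Fin N)) (Fin r ⊕ (Fin n × Fin N)) ℂ :=
  Matrix.fromBlocks x 0 0 (Matrix.blockDiagonal X)

/-- The torsor `T_pol` of the isomorphisms `z ⊕ … ⊕ z ⊕ X_1 ⊕ … ⊕ X_N` of an `r`-fold sum of the object `ℚ(-1)` and of the
`M_j` which respect the polarisations `Q_j` (de Rham) and `H` (Betti), with values in `ℚ(-w_j)`. -/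
def torsorOf (r : ℕ) (H : Matrix (Fin n) (Fin n) ℚ) (Q : Fin N → Matrix (Fin n) (Fin n) ℂ) (w : Fin N → ℤ) :
    Set (Matrix (Fin r ⊕ (Fin n × Fin N)) (Fin r ⊕ (Fin n × Fin N)) ℂ) :=
  {y | ∃ z : ℂ, z ≠ 0 ∧ ∃ X : Fin N → Matrix (Fin n) (Fin n) ℂ, y = total (z • 1) X ∧
    ∀ j, X j * Q j * (X j)ᵀ = z ^ (w j) • toC H}

/-- the matrix of `M_0 ⊕ M_0^∨` -/
noncomputable def withDual (x : Matrix (Fin r) (Fin r) ℂ) : Matrix (Fin r ⊕ Fin r) (Fin r ⊕ Fin r) ℂ :=
  Matrix.fromBlocks x 0 0 (x⁻¹)ᵀ

/-- the matrix of `(M_0 ⊕ M_0^∨)^⊗κ₀ ⊗ (M_1 ⊕ … ⊕ M_N)^⊗κ`, where the matrices of `M_0` and `M_j` are `x` and `X_j` -/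
noncomputable def tensor (κ₀ κ : Type) [Fintype κ₀] [Fintype κ] (x : Matrix (Fin r) (Fin r) ℂ)
    (X : Fin N → Matrix (Fin n) (Fin n) ℂ) :
    Matrix ((κ₀ → Fin r ⊕ Fin r) × (κ → Fin n × Fin N)) ((κ₀ → Fin r ⊕ Fin r) × (κ → Fin n × Fin N)) ℂ :=
  Matrix.of fun I J => (∏ k, withDual x (I.1 k) (J.1 k)) * ∏ k, Matrix.blockDiagonal X (I.2 k) (J.2 k)

/-- The product of the polarisations of the `M_j`, `j = b l`, `l : Fin m`; the polarisation of `M_j` is the tensor `H` in
`M_j ⊗ M_j`, placed in the tensor factors `e (l, 0)` and `e (l, 1)`. -/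
def polarisations (H : Matrix (Fin n) (Fin n) ℚ) {κ : Type} {m : ℕ} (e : Fin m × Fin 2 ≃ κ) (b : Fin m → Fin N)
    (I : κ → Fin n × Fin N) : ℚ :=
  ∏ l, if (I (e (l, 0))).2 = b l ∧ (I (e (l, 1))).2 = b l then H (I (e (l, 0))).1 (I (e (l, 1))).1 else 0

/-- All classes are combinations of classes of the form `u ⊗ (product of polarisations)`: if a tensor `α` of
`(M_0 ⊕ M_0^∨)^⊗κ₀ ⊗ (M_1 ⊕ … ⊕ M_N)^⊗κ` with coefficients in `K` is mapped to a multiple `ξ τ` of a rational tensor `τ`
on the Betti side, then `τ` is a linear combination of tensors `u ⊗ ∏ H` with rational `u` in `(M_0 ⊕ M_0^∨)^⊗κ₀`. -/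
def ClassesFromPolarisations (K : Subfield ℂ) (C₀ : Matrix (Fin r) (Fin r) ℂ) (H : Matrix (Fin n) (Fin n) ℚ)
    (P : Fin N → Matrix (Fin n) (Fin n) ℂ) : Prop :=
  ∀ (κ₀ κ : Type) [Fintype κ₀] [Fintype κ] [DecidableEq κ₀] [DecidableEq κ]
    (α : (κ₀ → Fin r ⊕ Fin r) × (κ → Fin n × Fin N) → K) (τ : (κ₀ → Fin r ⊕ Fin r) × (κ → Fin n × Fin N) → ℚ) (ξ : ℂ),
    ξ ≠ 0 → (tensor κ₀ κ C₀ P).mulVec (fun J => (α J : ℂ)) = (fun I => ξ * (τ I : ℂ)) →
    τ ∈ Submodule.span ℚ {G | ∃ (m : ℕ) (e : Fin m × Fin 2 ≃ κ) (b : Fin m → Fin N) (u : (κ₀ → Fin r ⊕ Fin r) → ℚ),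
      G = fun I => polarisations H e b I.2 * u I.1}

/-- The conclusion for one tuple of fibres; `P j` is the period matrix of the fibre with number `j`. -/
def Good (D : ℕ) (C₀ : Matrix (Fin r) (Fin r) ℂ) (H : Matrix (Fin n) (Fin n) ℚ)
    (P : Fin N → Matrix (Fin n) (Fin n) ℂ) : Prop :=
  (∀ K : Subfield ℂ, FiniteDimensional ℚ K → Module.finrank ℚ K ≤ D →
    -- 1: classes
    ClassesFromPolarisations K C₀ H P ∧
    ∀ S : Set (Matrix (Fin r ⊕ (Fin n × Fin N)) (Fin r ⊕ (Fin n × Fin N)) ℂ), IsSubtorsor K S → RationalGroup S →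
    total C₀ P ∈ S →
    -- 2: stability under the symplectic groups
    (∀ γ : Fin N → Matrix (Fin n) (Fin n) ℂ, (∀ j, γ j * toC H * (γ j)ᵀ = toC H) → ∀ x ∈ S, total 1 γ * x ∈ S) ∧
    -- 3: the absolute case
    (0 < r → C₀ = (2 * Real.pi * Complex.I : ℂ) • 1 →
      ∀ (Q : Fin N → Matrix (Fin n) (Fin n) ℂ) (w : Fin N → ℤ), S ⊆ torsorOf r H Q w → S = torsorOf r H Q w)) ∧
  -- 4: the fibres are not special
  (∀ j, ¬ Special D H (P j)) ∧
  -- 5: there are no homomorphisms
  ∀ i j, i ≠ j → ∀ K : Subfield ℂ, FiniteDimensional ℚ K → Module.finrank ℚ K ≤ D → ∀ α : Matrix (Fin n) (Fin n) ℚ,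
    (∀ k l, ((P i)⁻¹ * toC α * P j) k l ∈ K) → α = 0

end

/-! ### Auxiliary lemmas -/

theorem base_of {m n q : ℕ} {B : ℝ} (hB : 1 ≤ B) {T : MvPolynomial (Fin m) ℤ}
    {A : Fin m → Fin n → Fin n → MvPolynomial (Fin m) ℤ} {Z W : Matrix (Fin n) (Fin n) (MvPowerSeries (Fin m) ℚ)}
    (h : Family q B T A Z W) :
    Pool.Agent.H885.GBaseU (N := 1) q B T (fun _ => A) (fun _ => Z) (fun _ => W) :=
  ⟨hB, h.degT, h.sizeT, fun _ => h.degA, fun _ => h.sizeA, fun _ => h.ode, fun _ => h.inv, fun _ => h.size, fun k => by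
    obtain ⟨d, h1, h2, h3⟩ := h.den k
    exact ⟨d, h1, h2, fun _ => h3⟩⟩

theorem sym_inf {m n N : ℕ} {Z : Fin N → Matrix (Fin n) (Fin n) (MvPowerSeries (Fin m) ℚ)} {a : Fin N → Fin m → ℤ}
    {b : Fin N → ℕ} {β : ℕ} {X : Fin N → Matrix (Fin n) (Fin n) ℂ}
    (h : Symmetry (fun j => if b j = β then onLine (a j) (Z j) else 1) (fun j => if b j = β then X j else 0)) :
    Pool.Agent.H885.InfT (Pool.Agent.H885.part b (fun j => Pool.Agent.H885.lineM (a j) (Z j)) β)
      (fun j => if b j = β then X j else 0) := by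
  have h1 : Pool.Agent.H885.cent (Pool.Agent.H885.part b (fun j => Pool.Agent.H885.lineM (a j) (Z j)) β) =
      fun σ : Fin N × Fin n × Fin n => (if b σ.1 = β then onLine (a σ.1) (Z σ.1) else 1) σ.2.1 σ.2.2 := by
    funext σ
    unfold Pool.Agent.H885.cent Pool.Agent.H885.part
    by_cases hb : b σ.1 = β
    · rw [if_pos hb, if_pos hb]
      rfl
    · rw [if_neg hb, if_neg hb, Matrix.one_apply, Matrix.one_apply]
      split_ifs
      · exact map_one _
      · exact map_zero _
  intro R hR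
  rw [h1] at hR ⊢
  refine Eq.trans ?_ (h R hR)
  refine Finset.sum_congr rfl fun σ _ => ?_
  rw [Matrix.mul_apply]
  rfl

theorem map_eq {n : ℕ} (M : Matrix (Fin n) (Fin n) ℚ) : toC M = Pool.Agent.Y119.HY.cm M := by
  ext i j
  rw [Pool.Agent.Y119.HY.cm_apply]
  rfl

theorem pres_of {g : ℕ} {A : AbVar g} {H : Matrix (Fin (2 * g)) (Fin (2 * g)) ℚ}
    {P : Matrix (Fin (2 * g)) (Fin (2 * g)) ℂ} (h : Presents A H P) : ∃ R, Pool.Agent.H936.SL.Pres A H P R := by
  obtain ⟨R, T, q, hR, hP, hT, hq, hPT, hE⟩ := h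
  set e := Pool.Agent.R917.eqv g with he
  set Ts : Matrix (Fin (2 * g)) (Fin (2 * g)) ℂ := T.submatrix e.symm id with hTs
  have h1 : P = Pool.Agent.Y119.HY.cm R * Pool.Agent.R917.PM A * Ts := by
    rw [hPT, map_eq, Matrix.mul_assoc, Matrix.mul_assoc]
    congr 1
    ext a b
    rw [Matrix.mul_apply, Matrix.mul_apply, ← Equiv.sum_comp e]
    refine Finset.sum_congr rfl fun i _ => ?_
    rw [Pool.Agent.R917.PM_apply, hTs, Matrix.submatrix_apply, Equiv.symm_apply_apply]
    rfl
  have h2 : IsUnit Ts.det := by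
    have h3 := (Matrix.isUnit_iff_isUnit_det _).1 hP
    rw [h1, Matrix.det_mul] at h3
    exact isUnit_of_mul_isUnit_right h3
  refine ⟨R, Ts, Ts⁻¹, q, (Matrix.isUnit_iff_isUnit_det _).1 hR, Matrix.mul_nonsing_inv _ h2, fun i j => hT _ _, hq, h1, ?_⟩
  ext a b
  have h3 := hE a b
  have h4 : ∀ c d, riemannForm A.lam A.η (A.lam c) (A.lam d) = ((Pool.Agent.H936.SL.EM A c d : ℚ) : ℂ) := by
    intro c d
    have h5 := A.rf_eq (Pi.single c 1) (Pi.single d 1)
    have h6 : ∀ c : Fin (2 * g), A.per (Pi.single c 1) = A.lam c := by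
      intro c
      have h7 := A.per_bas c
      have h8 : A.bas c = Pi.single c 1 := Pi.basisFun_apply ℚ (Fin (2 * g)) c
      rwa [h8] at h7
    rw [h6, h6] at h5
    exact h5
  simp only [h4] at h3
  have h5 : (((R * Pool.Agent.H936.SL.EM A * Rᵀ) a b : ℚ) : ℂ) = ((q * H a b : ℚ) : ℂ) := by
    push_cast
    rw [← h3, Matrix.mul_apply]
    push_cast
    rw [Finset.sum_comm]
    refine Finset.sum_congr rfl fun d _ => ?_
    rw [Matrix.mul_apply, Matrix.transpose_apply]
    push_cast
    rw [Finset.sum_mul]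
  rw [Matrix.smul_apply, smul_eq_mul]
  exact_mod_cast h5

theorem ctr_of {g D : ℕ} {H : Matrix (Fin (2 * g)) (Fin (2 * g)) ℚ} {C : Matrix (Fin (2 * g)) (Fin (2 * g)) ℂ}
    (hHu : IsUnit H) (hH : Hᵀ = -H) (hC : IsUnit C) (hP : Polarised D H C) :
    Pool.Agent.H936.V.Ctr (2 * Real.pi * Complex.I : ℂ) D H C := by
  obtain ⟨Q, hQ, hQ'⟩ := hP
  rw [map_eq] at hQ'
  exact ⟨hH, (Matrix.isUnit_iff_isUnit_det _).1 hHu, (Matrix.isUnit_iff_isUnit_det _).1 hC, Q, hQ, hQ'⟩

/-- special abelian varieties -/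
theorem special_of {g D : ℕ} (hg : 0 < g) {A₀ : AbVar g} {H : Matrix (Fin (2 * g)) (Fin (2 * g)) ℚ}
    {C : Matrix (Fin (2 * g)) (Fin (2 * g)) ℂ} (hA : Presents A₀ H C) (hHu : IsUnit H) (hH : Hᵀ = -H) (hC : IsUnit C)
    (h : Special D H C) : Pool.Agent.H936.V.SpecialC D H C := by
  have hd := (Matrix.isUnit_iff_isUnit_det _).1 hHu
  have hC' := (Matrix.isUnit_iff_isUnit_det _).1 hC
  obtain ⟨R, hp⟩ := pres_of hA
  obtain ⟨K, hK, hD, h⟩ := h
  have hKalg : ∀ x ∈ K, IsAlgebraic ℚ x := by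
    intro x hx
    have : NumberField K := { to_charZero := inferInstance, to_finiteDimensional := hK }
    have h6 : IsAlgebraic ℚ (⟨x, hx⟩ : K) := Algebra.IsAlgebraic.isAlgebraic _
    exact h6.algebraMap (A := ℂ)
  rcases h with ⟨α, hα, ha⟩ | ⟨S, hS, hSr, hm, γ, hγ, x, hx, hx'⟩
  · simp only [map_eq] at ha
    obtain ⟨S, hS⟩ := Pool.Agent.H936.V.spc_of_mat hg hp hH hd hC' hKalg hα ha
    exact ⟨A₀, R, K, S, hK, hD, hS⟩
  · have hHc := Pool.Agent.H936.G.cm_unit hd
    have hHct : (Pool.Agent.Y119.HY.cm H)ᵀ = -Pool.Agent.Y119.HY.cm H := by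
      rw [← Pool.Agent.Y119.HY.cm_transpose, hH, Pool.Agent.Y119.HY.cm_neg]
    obtain ⟨u, hu, hu'⟩ := Pool.Agent.Y123.GN.quot_GB (X := 1) (Y := γ) (μ := 1)
      (B := Pool.Agent.Y119.HY.cm H) (Q := Pool.Agent.Y119.HY.cm H) one_ne_zero isUnit_one
      (by rw [Matrix.one_mul, Matrix.transpose_one, Matrix.mul_one, one_smul])
      (by rw [one_smul, ← map_eq]; exact hγ) (Or.inl ⟨(Matrix.isUnit_iff_isUnit_det _).2 hHc, hHct⟩)
    refine ⟨A₀, R, K, S, hK, hD, hKalg, Pool.Agent.Y123.ST.subT_iff.1 hS, hSr, hm, hp, u, hu, x, hx, ?_⟩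
    rw [Matrix.mul_one] at hu'
    rw [hu']
    exact hx'

/-- the conditions on `M_0` -/
theorem adm_of {g D e r : ℕ} {C₀ : Matrix (Fin r) (Fin r) ℂ} (h : NoLargeFactor g D C₀ ∨ FewPeriods g e C₀) :
    Pool.Agent.H936.X.Adm g D e C₀ := by
  rcases h with ⟨K, S, hK, hD, hS, hSr, hm, t, 𝔞, h1, h2, h3⟩ | ⟨s, β, hs, hβ⟩
  · have hS' := Pool.Agent.Y123.ST.subT_iff.1 hS
    have hL : ∀ X ∈ Pool.Agent.H936.SL.Lm S, InLie S X := by
      intro X hX s x hx
      refine Pool.Agent.Helper880_R3.exp_stab hS' ?_ hx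
      exact (Pool.Agent.H936.SL.Lm S).smul_mem s hX
    have hch : (2 * g + 1).choose 2 = g * (2 * g + 1) := by
      rw [Nat.choose_two_right, Nat.add_sub_cancel]
      have h4 : (2 * g + 1) * (2 * g) = 2 * (g * (2 * g + 1)) := by ring
      rw [h4, Nat.mul_div_cancel_left _ (by norm_num)]
    refine Or.inr ⟨K, S, hK, hD, hS', hSr, hm, t, 𝔞, fun X hX => h1 X (hL X hX), h2, fun i hi => ?_⟩
    obtain ⟨h4, h5, h6⟩ := h3 i hi
    refine ⟨h4, fun X hX Y hY => h5 X (hL X hX) Y hY, ?_⟩
    rw [hch]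
    exact h6
  · exact Or.inl ⟨s, β, hs, hβ⟩

/-- from the stability to the conclusion -/
theorem good_of {g N D r : ℕ} (hg : 0 < g) {C₀ : Matrix (Fin r) (Fin r) ℂ} (hC₀ : IsUnit C₀)
    {H : Matrix (Fin (2 * g)) (Fin (2 * g)) ℚ}
    (hHu : IsUnit H) (hHt : Hᵀ = -H) {P : Fin N → Matrix (Fin (2 * g)) (Fin (2 * g)) ℂ}
    (hpres : ∀ j, ∃ A : AbVar g, Presents A H (P j))
    (h : ∀ K : Subfield ℂ, FiniteDimensional ℚ K → Module.finrank ℚ K ≤ D →
      ∀ S : Set (Matrix (Fin r ⊕ (Fin (2 * g) × Fin N)) (Fin r ⊕ (Fin (2 * g) × Fin N)) ℂ), IsSubtorsor K S →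
      RationalGroup S → total C₀ P ∈ S → ∀ γ : Fin N → (Matrix (Fin (2 * g)) (Fin (2 * g)) ℂ)ˣ,
      (∀ j, γ j ∈ Pool.Agent.Y123.GN.GB (Pool.Agent.Y119.HY.cm H)) →
      ∀ x ∈ S, total 1 (fun j => (γ j : Matrix (Fin (2 * g)) (Fin (2 * g)) ℂ)) * x ∈ S) : Good D C₀ H P := by
  have hHd : IsUnit H.det := (Matrix.isUnit_iff_isUnit_det _).1 hHu
  have hPu : ∀ j, IsUnit (P j) := fun j => by
    obtain ⟨A, R, T, q, hR, hP, h1⟩ := hpres j
    exact hP
  have hHc : IsUnit (Pool.Agent.Y119.HY.cm H).det := Pool.Agent.H936.G.cm_unit hHd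
  have hHct : (Pool.Agent.Y119.HY.cm H)ᵀ = -Pool.Agent.Y119.HY.cm H := by
    rw [← Pool.Agent.Y119.HY.cm_transpose, hHt, Pool.Agent.Y119.HY.cm_neg]
  have hSpf : Pool.Agent.Y123.GN.Spf (Pool.Agent.Y119.HY.cm H) :=
    ⟨(Matrix.isUnit_iff_isUnit_det _).2 hHc, hHct⟩
  have hstab0 : ∀ K : Subfield ℂ, FiniteDimensional ℚ K → Module.finrank ℚ K ≤ D →
      ∀ S : Set (Matrix (Fin r ⊕ (Fin (2 * g) × Fin N)) (Fin r ⊕ (Fin (2 * g) × Fin N)) ℂ), IsSubtorsor K S →
      RationalGroup S → total C₀ P ∈ S →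
      ∀ γ : Fin N → Matrix (Fin (2 * g)) (Fin (2 * g)) ℂ, (∀ j, γ j * toC H * (γ j)ᵀ = toC H) →
        ∀ x ∈ S, total 1 γ * x ∈ S := by
    intro K hK hKD S hS hSr hmem γ hγ x hx
    choose u hu hu' using fun j => Pool.Agent.Y123.GN.quot_GB (X := 1) (Y := γ j) (μ := 1)
      (B := Pool.Agent.Y119.HY.cm H) (Q := Pool.Agent.Y119.HY.cm H) one_ne_zero isUnit_one
      (by rw [Matrix.one_mul, Matrix.transpose_one, Matrix.mul_one, one_smul])
      (by rw [one_smul, ← map_eq]; exact hγ j) (Or.inl hSpf)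
    have h1 := h K hK hKD S hS hSr hmem u hu x hx
    have h2 : (fun j => (u j : Matrix (Fin (2 * g)) (Fin (2 * g)) ℂ)) = γ := by
      funext j
      have h3 := hu' j
      rwa [Matrix.mul_one] at h3
    rwa [h2] at h1
  have hstab : Pool.Agent.H936.V.Stab D H C₀ P := by
    intro K hK hKD S hS hSr hmem γ hγ x hx
    refine hstab0 K hK hKD S (Pool.Agent.Y123.ST.subT_iff.2 hS) hSr hmem γ (fun j => ?_) x hx
    rw [map_eq]
    exact hγ j
  have hunit : IsUnit (total C₀ P) := Pool.Agent.H936.V.Tot_unit_of hC₀ hPu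
  refine ⟨fun K hK hKD => ⟨?_, fun S hS hSr hmem => ⟨hstab0 K hK hKD S hS hSr hmem, ?_⟩⟩, fun j hs => ?_,
    fun i j hij K hK hKD α ha => ?_⟩
  · intro κ₀ κ _ _ _ _ α τ ξ hξ hc
    have h1 := Pool.Agent.H936.X.tens_of (κ₀ := κ₀) (κ := κ) (C₀ := C₀) (P := P) (K := K) hHt hHd hunit
      (fun S hS hSr hm γ hγ => hstab K hK hKD S hS hSr hm γ hγ _ hm) α τ hξ hc
    have h2 : ∀ G : (κ → Fin (2 * g) × Fin N) → (κ₀ → Fin r ⊕ Fin r) → ℚ, G ∈ Submodule.span ℚ
        {G : (κ → Fin (2 * g) × Fin N) → (κ₀ → Fin r ⊕ Fin r) → ℚ |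
        ∃ (m : ℕ) (e : Fin m × Fin 2 ≃ κ) (b : Fin m → Fin N) (u : (κ₀ → Fin r ⊕ Fin r) → ℚ),
          G = Pool.Agent.H936.X.prM H e b u} →
        (fun I : (κ₀ → Fin r ⊕ Fin r) × (κ → Fin (2 * g) × Fin N) => G I.2 I.1) ∈ Submodule.span ℚ
          {G : (κ₀ → Fin r ⊕ Fin r) × (κ → Fin (2 * g) × Fin N) → ℚ |
          ∃ (m : ℕ) (e : Fin m × Fin 2 ≃ κ) (b : Fin m → Fin N) (u : (κ₀ → Fin r ⊕ Fin r) → ℚ),
            G = fun I => polarisations H e b I.2 * u I.1} := by
      intro G hG
      induction hG using Submodule.span_induction with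
      | mem G hG =>
        obtain ⟨m, e, b, u, rfl⟩ := hG
        exact Submodule.subset_span ⟨m, e, b, u, rfl⟩
      | zero => exact Submodule.zero_mem _
      | add x y _ _ hx hy => exact Submodule.add_mem _ hx hy
      | smul c x _ hx => exact Submodule.smul_mem _ c hx
    exact h2 _ h1
  · intro hr hC Q w hST
    have hS' := Pool.Agent.Y123.ST.subT_iff.1 hS
    have hKalg : ∀ x ∈ K, IsAlgebraic ℚ x := by
      intro x hx
      have : NumberField K := { to_charZero := inferInstance, to_finiteDimensional := hK }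
      have h6 : IsAlgebraic ℚ (⟨x, hx⟩ : K) := Algebra.IsAlgebraic.isAlgebraic _
      exact h6.algebraMap (A := ℂ)
    have hFT : torsorOf r H Q w = Pool.Agent.Helper880_R3.FT r (Pool.Agent.Y119.HY.cm H) Q w (fun _ => 0) fun _ => 1 := by
      ext y
      constructor
      · rintro ⟨z, hz, X, hy, hX⟩
        refine ⟨z, hz, X, hy, fun j => ⟨?_, Or.inl hSpf⟩⟩
        rw [← map_eq]
        exact hX j
      · rintro ⟨z, hz, X, hy, hX⟩
        refine ⟨z, hz, X, hy, fun j => ?_⟩
        rw [map_eq]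
        exact (hX j).1
    have hgrp := h K hK hKD S hS hSr hmem
    rw [hC] at hmem
    rw [hFT] at hST ⊢
    exact Pool.Agent.Helper880_R3.absolute hKalg hr hS' hmem hgrp hST
  · obtain ⟨A, hA⟩ := hpres j
    exact Pool.Agent.H936.V.not_spc hC₀ hPu hstab j (special_of hg hA hHu hHt (hPu j) hs)
  · simp only [map_eq] at ha
    exact Pool.Agent.H936.V.no_hom hHt hHd hC₀ hPu hstab hij hK hKD ha

/-- **The theorem.** -/
theorem result (g m N q D r e : ℕ) (hg : 2 ≤ g) :
    ∃ E : ℕ, ∀ (B : ℝ) (h w b₀ : ℕ), 1 ≤ B → (2 * B * ((h : ℝ) + w + 2)) ^ E ≤ (b₀ : ℝ) →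
    -- the special abelian varieties
    ∀ (H : Matrix (Fin (2 * g)) (Fin (2 * g)) ℚ) (C : Fin N → Matrix (Fin (2 * g)) (Fin (2 * g)) ℂ),
    IsUnit H → Hᵀ = -H → (∀ j, IsUnit (C j) ∧ Polarised D H (C j) ∧ (∃ A₀ : AbVar g, Presents A₀ H (C j)) ∧
      Special D H (C j)) →
    -- the families and the points
    ∀ (T : Fin N → MvPolynomial (Fin m) ℤ) (A : Fin N → Fin m → Fin (2 * g) → Fin (2 * g) → MvPolynomial (Fin m) ℤ)
      (Z W : Fin N → Matrix (Fin (2 * g)) (Fin (2 * g)) (MvPowerSeries (Fin m) ℚ)),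
      (∀ j, Family q B (T j) (A j) (Z j) (W j)) →
    ∀ (a : Fin N → Fin m → ℤ) (b : Fin N → ℕ), (∀ j i, |a j i| ≤ h) → (∀ j, restrict (a j) (toQ (T j)) ≠ 0) →
      InWindow m B h w b₀ b → BigMonodromy H C b a Z →
      (∀ j, ∃ A : AbVar g, Presents A H (C j * value (Z j) (a j) (b j))) →
    -- the motive `M_0`
    ∀ C₀ : Matrix (Fin r) (Fin r) ℂ, IsUnit C₀ → NoLargeFactor g D C₀ ∨ FewPeriods g e C₀ →
    Good D C₀ H fun j => C j * value (Z j) (a j) (b j) := by
  have hθ : (2 * Real.pi * Complex.I : ℂ) ≠ 0 := Complex.two_pi_I_ne_zero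
  obtain ⟨E, hE⟩ := Pool.Agent.H936.X.fin2 hg hθ m N r q D e
  refine ⟨E, fun B h w b₀ hB hbig H C hHu hHt hcen T A Z W hF a b ha hTa hb hI hpres C₀ hC₀ hadm => ?_⟩
  refine good_of (by omega) hC₀ hHu hHt hpres fun K hK hKD S hS hSr hmem => ?_
  refine hE B h w b₀ hB hbig H ⟨b, C, C₀, T, A, Z, W, a, K, S⟩ ?_ (adm_of hadm)
  have hHd := (Matrix.isUnit_iff_isUnit_det _).1 hHu
  exact
    { skew := hHt
      hd := hHd
      b_mem := hb.1
      sep := hb.2
      ctr := fun j => ctr_of hHu hHt (hcen j).1 (hcen j).2.1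
      spc := fun j => by
        obtain ⟨h1, -, ⟨A₀, hA₀⟩, h2⟩ := hcen j
        exact special_of (by omega) hA₀ hHu hHt h1 h2
      c0 := ((Matrix.isUnit_iff_isUnit_det _).1 hC₀).ne_zero
      base := fun j => base_of hB (hF j)
      ha := ha
      line := hTa
      inf := fun X hX β => by
        refine sym_inf (X := fun j => (C j)⁻¹ * X j * C j) (hI X (fun j => ?_) β)
        have h1 := hX j
        rw [← Pool.Agent.H936.SL.cm_inv hHd, ← Pool.Agent.H936.SL.lieB_eq (Pool.Agent.H936.G.cm_unit hHd),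
          Pool.Agent.Helper880_R3.mem_lieB] at h1
        rw [map_eq]
        exact h1.2
      fd := hK
      deg := hKD
      tor := Pool.Agent.Y123.ST.subT_iff.1 hS
      rat := hSr
      mem := hmem
      pres := fun j => by
        obtain ⟨A, hA⟩ := hpres j
        obtain ⟨R, hR⟩ := pres_of hA
        exact ⟨A, R, hR⟩ }

end Pool.Agent.Results.MP_77d3f5_ag.NearDifferentSpecialVarieties
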